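import Pool.Agent.Y184.RB.Base2

/-!
# The real manifold underlying a complex manifold, and cut-off functions
-/

set_option autoImplicit false

open Set Topology Filter
open scoped ContDiff Manifold

namespace Pool.Agent.Y768.RB

open Pool.Agent.Y184.RB

/-- the real manifold underlying a complex manifold -/
theorem stReal : StReal := by
  intro n Y _ _ hM
  refine isManifold_of_contDiffOn 𝓘(ℝ, En n) ∞ Y ?_
  intro e e' he he'
  have h := (contDiffGroupoid ω 𝓘(ℂ, En n)).compatible he he'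
  rw [contDiffGroupoid, mem_groupoid_of_pregroupoid] at h
  have h1 : ContDiffOn ℂ ω (𝓘(ℂ, En n) ∘ e.symm ≫ₕ e' ∘ 𝓘(ℂ, En n).symm)
    (𝓘(ℂ, En n).symm ⁻¹' (e.symm ≫ₕ e').source ∩ range 𝓘(ℂ, En n)) := h.1
  have h2 : ContDiffOn ℝ ω (𝓘(ℂ, En n) ∘ e.symm ≫ₕ e' ∘ 𝓘(ℂ, En n).symm)
    (𝓘(ℂ, En n).symm ⁻¹' (e.symm ≫ₕ e').source ∩ range 𝓘(ℂ, En n)) := h1.restrict_scalars ℝ
  exact h2.of_le le_top

section
variable {n : ℕ} {Y : Type} [TopologicalSpace Y] [ChartedSpace (En n) Y]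

/-- a complex disc in a chart -/
theorem discChart (hM : IsManifold 𝓘(ℂ, En n) ω Y) (p : Y) (f : ℂ → Y) (hf : IsDisc n f)
    (hs : f 0 ∈ (chartAt (En n) p).source) :
    ContDiffAt ℂ ω (fun ζ : ℂ => (chartAt (En n) p : Y → En n) (f ζ)) 0 := by
  have h1 : ContMDiffAt 𝓘(ℂ, En n) 𝓘(ℂ, En n) ω (chartAt (En n) p) (f 0) :=
    contMDiffAt_of_mem_maximalAtlas (IsManifold.chart_mem_maximalAtlas p) hs
  have h2 : ContMDiffAt 𝓘(ℂ, ℂ) 𝓘(ℂ, En n) ω
      (fun ζ : ℂ => (chartAt (En n) p : Y → En n) (f ζ)) 0 :=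
    ContMDiffAt.comp (0 : ℂ) h1 hf
  exact h2.contDiffAt

theorem smoothChart (hM : IsManifold 𝓘(ℂ, En n) ω Y) (p : Y) (g : Y → ℝ) (z : En n)
    (hz : z ∈ (chartAt (En n) p).target)
    (hg : ContMDiffAt 𝓘(ℝ, En n) 𝓘(ℝ, ℝ) ∞ g ((chartAt (En n) p).symm z)) :
    ContDiffAt ℝ ∞ (fun z => g ((chartAt (En n) p).symm z)) z := by
  have := stReal n Y hM
  have h1 : ContMDiffAt 𝓘(ℝ, En n) 𝓘(ℝ, En n) ∞ (chartAt (En n) p).symm z :=
    contMDiffAt_symm_of_mem_maximalAtlas (IsManifold.chart_mem_maximalAtlas p) hz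
  have h2 : ContMDiffAt 𝓘(ℝ, En n) 𝓘(ℝ, ℝ) ∞
      (fun z => g ((chartAt (En n) p).symm z)) z := ContMDiffAt.comp z hg h1
  exact h2.contDiffAt

/-- the Laplacian along a disc in a chart -/
theorem lapChart (hLev : StLevN) (hM : IsManifold 𝓘(ℂ, En n) ω Y) (p : Y) (g : Y → ℝ)
    (f : ℂ → Y) (hf : IsDisc n f) (hs : f 0 ∈ (chartAt (En n) p).source)
    (hg : ContMDiffAt 𝓘(ℝ, En n) 𝓘(ℝ, ℝ) ∞ g (f 0)) :
    Laplacian.laplacian (fun ζ : ℂ => g (f ζ)) 0 =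
      lev (fun z => g ((chartAt (En n) p).symm z)) ((chartAt (En n) p) (f 0))
        (deriv (fun ζ : ℂ => (chartAt (En n) p : Y → En n) (f ζ)) 0) := by
  have hz : (chartAt (En n) p) (f 0) ∈ (chartAt (En n) p).target :=
    (chartAt (En n) p).map_source hs
  have h1 := (hLev n).1 (fun z => g ((chartAt (En n) p).symm z))
    (fun ζ : ℂ => (chartAt (En n) p : Y → En n) (f ζ)) (discChart hM p f hf hs)
    ((smoothChart hM p g _ hz (by rw [(chartAt (En n) p).left_inv hs]; exact hg)).of_le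
      ENat.LEInfty.out)
  rw [← h1]
  refine (InnerProductSpace.laplacian_congr_nhds ?_).eq_of_nhds
  have hc : ContinuousAt f 0 := ContMDiffAt.continuousAt hf
  filter_upwards [hc.preimage_mem_nhds ((chartAt (En n) p).open_source.mem_nhds hs)] with ζ hζ
  rw [(chartAt (En n) p).left_inv hζ]

/-- discs are smooth for the real structures -/
theorem discReal (hM : IsManifold 𝓘(ℂ, En n) ω Y) (f : ℂ → Y) (hf : IsDisc n f) :
    ContMDiffAt 𝓘(ℝ, ℂ) 𝓘(ℝ, En n) ∞ f 0 := by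
  have := stReal n Y hM
  have hs : f 0 ∈ (chartAt (En n) (f 0)).source := mem_chart_source _ _
  have h1 : ContDiffAt ℝ ∞ (fun ζ : ℂ => (chartAt (En n) (f 0) : Y → En n) (f ζ)) 0 := by
    have h2 : ContDiffAt ℝ ω (fun ζ : ℂ => (chartAt (En n) (f 0) : Y → En n) (f ζ)) 0 :=
      (discChart hM (f 0) f hf hs).restrict_scalars ℝ
    exact h2.of_le le_top
  have h3 : ContMDiffAt 𝓘(ℝ, En n) 𝓘(ℝ, En n) ∞ (chartAt (En n) (f 0)).symm
      ((chartAt (En n) (f 0)) (f 0)) :=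
    contMDiffAt_symm_of_mem_maximalAtlas (IsManifold.chart_mem_maximalAtlas (f 0))
      ((chartAt (En n) (f 0)).map_source hs)
  have h4 : ContMDiffAt 𝓘(ℝ, ℂ) 𝓘(ℝ, En n) ∞
      (fun ζ : ℂ => (chartAt (En n) (f 0)).symm ((chartAt (En n) (f 0) : Y → En n) (f ζ))) 0 :=
    ContMDiffAt.comp (0 : ℂ) h3 h1.contMDiffAt
  refine h4.congr_of_eventuallyEq ?_
  have hc : ContinuousAt f 0 := ContMDiffAt.continuousAt hf
  filter_upwards [hc.preimage_mem_nhds ((chartAt (En n) (f 0)).open_source.mem_nhds hs)] with ζ hζ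
  rw [(chartAt (En n) (f 0)).left_inv hζ]

/-- the tangent vector of a disc in a chart -/
theorem derivChart (hM : IsManifold 𝓘(ℂ, En n) ω Y) (p : Y) (f : ℂ → Y) (hf : IsDisc n f)
    (hs : f 0 ∈ (chartAt (En n) p).source)
    (h0 : mfderiv 𝓘(ℂ, ℂ) 𝓘(ℂ, En n) f 0 = 0) :
    deriv (fun ζ : ℂ => (chartAt (En n) p : Y → En n) (f ζ)) 0 = 0 := by
  have h1 : ContMDiffAt 𝓘(ℂ, En n) 𝓘(ℂ, En n) ω (chartAt (En n) p) (f 0) :=
    contMDiffAt_of_mem_maximalAtlas (IsManifold.chart_mem_maximalAtlas p) hs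
  have h2 : MDifferentiableAt 𝓘(ℂ, En n) 𝓘(ℂ, En n) (chartAt (En n) p) (f 0) :=
    h1.mdifferentiableAt (by simp)
  have h3 : MDifferentiableAt 𝓘(ℂ, ℂ) 𝓘(ℂ, En n) f 0 :=
    ContMDiffAt.mdifferentiableAt hf (by simp)
  have h4 := mfderiv_comp (0 : ℂ) h2 h3
  rw [h0] at h4
  have h5 : mfderiv 𝓘(ℂ, ℂ) 𝓘(ℂ, En n) ((chartAt (En n) p : Y → En n) ∘ f) 0 = 0 := by
    rw [h4]
    exact ContinuousLinearMap.comp_zero _
  have h6 : fderiv ℂ ((chartAt (En n) p : Y → En n) ∘ f) 0 = 0 := by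
    rw [← mfderiv_eq_fderiv]
    exact h5
  have h7 : deriv ((chartAt (En n) p : Y → En n) ∘ f) 0 = 0 := by
    rw [← fderiv_apply_one_eq_deriv, h6]
    rfl
  exact h7

/-- the value of a form in a chart -/
theorem valChart (hLev : StLevN) (hM : IsManifold 𝓘(ℂ, En n) ω Y) (Ω : Form n Y) (p : Y)
    (f : ℂ → Y) (hf : IsDisc n f) (hs : f 0 ∈ (chartAt (En n) p).source)
    (hg : ContMDiffAt 𝓘(ℝ, En n) 𝓘(ℝ, ℝ) ∞ (Ω.pot p) (f 0))
    (hc : ∀ f' : ℂ → Y, IsDisc n f' → f' 0 = f 0 →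
      Laplacian.laplacian (fun ζ : ℂ => Ω.pot p (f' ζ) - Ω.pot (f 0) (f' ζ)) 0 = 0) :
    Ω.val f =
      lev (fun z => Ω.pot p ((chartAt (En n) p).symm z)) ((chartAt (En n) p) (f 0))
        (deriv (fun ζ : ℂ => (chartAt (En n) p : Y → En n) (f ζ)) 0) := by
  have h0 := hc f hf rfl
  have := stReal n Y hM
  have hfr : ContMDiffAt 𝓘(ℝ, ℂ) 𝓘(ℝ, En n) ∞ f 0 := discReal hM f hf
  have h1 : ContDiffAt ℝ 2 (fun ζ : ℂ => Ω.pot p (f ζ)) 0 := by
    have h3 : ContMDiffAt 𝓘(ℝ, ℂ) 𝓘(ℝ, ℝ) ∞ (fun ζ : ℂ => Ω.pot p (f ζ)) 0 :=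
      ContMDiffAt.comp (0 : ℂ) hg hfr
    exact h3.contDiffAt.of_le ENat.LEInfty.out
  have h2 : ContDiffAt ℝ 2 (fun ζ : ℂ => Ω.pot (f 0) (f ζ)) 0 := by
    have h3 : ContMDiffAt 𝓘(ℝ, ℂ) 𝓘(ℝ, ℝ) ∞ (fun ζ : ℂ => Ω.pot (f 0) (f ζ)) 0 :=
      ContMDiffAt.comp (0 : ℂ) (Ω.smooth (f 0)).self_of_nhds hfr
    exact h3.contDiffAt.of_le ENat.LEInfty.out
  have h4 := ContDiffAt.laplacian_sub h1 h2
  have h5 : Laplacian.laplacian (fun ζ : ℂ => Ω.pot p (f ζ) - Ω.pot (f 0) (f ζ)) 0 =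
    Laplacian.laplacian (fun ζ : ℂ => Ω.pot p (f ζ)) 0 -
      Laplacian.laplacian (fun ζ : ℂ => Ω.pot (f 0) (f ζ)) 0 := h4
  rw [← lapChart hLev hM p (Ω.pot p) f hf hs hg]
  unfold Form.val
  linarith

/-- the value of a Kähler form is nonnegative -/
theorem valNonneg (hLev : StLevN) (hM : IsManifold 𝓘(ℂ, En n) ω Y) (Ω : Form n Y)
    (hK : Ω.IsKahler) (f : ℂ → Y) (hf : IsDisc n f) : 0 ≤ Ω.val f := by
  by_cases hd : mfderiv 𝓘(ℂ, ℂ) 𝓘(ℂ, En n) f 0 = 0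
  · have hs : f 0 ∈ (chartAt (En n) (f 0)).source := mem_chart_source _ _
    have hsm := (Ω.smooth (f 0)).self_of_nhds
    have h1 := lapChart hLev hM (f 0) (Ω.pot (f 0)) f hf hs hsm
    have h2 : deriv (fun ζ : ℂ => (chartAt (En n) (f 0) : Y → En n) (f ζ)) 0 = 0 :=
      derivChart hM (f 0) f hf hs hd
    unfold Form.val
    rw [h1, h2]
    have h3 := (hLev n).2.2 (fun z => Ω.pot (f 0) ((chartAt (En n) (f 0)).symm z))
      ((chartAt (En n) (f 0)) (f 0)) 0 0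
      ((smoothChart hM (f 0) (Ω.pot (f 0)) _ ((chartAt (En n) (f 0)).map_source hs)
        (by rw [(chartAt (En n) (f 0)).left_inv hs]; exact hsm)).of_le ENat.LEInfty.out)
    simp only [smul_zero, norm_zero] at h3
    rw [h3]
    norm_num
  · exact (hK f hf hd).le

/-- the complex line through a point in a chart -/
theorem lineDisc (hM : IsManifold 𝓘(ℂ, En n) ω Y) (p : Y) (z v : En n)
    (hz : z ∈ (chartAt (En n) p).target) :
    IsDisc n (fun ζ : ℂ => (chartAt (En n) p).symm (z + ζ • v)) := by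
  have h1 : ContMDiffAt 𝓘(ℂ, En n) 𝓘(ℂ, En n) ω (chartAt (En n) p).symm (z + (0 : ℂ) • v) :=
    contMDiffAt_symm_of_mem_maximalAtlas (IsManifold.chart_mem_maximalAtlas p)
      (by simpa using hz)
  have h2 : ContMDiffAt 𝓘(ℂ, ℂ) 𝓘(ℂ, En n) ω (fun ζ : ℂ => z + ζ • v) 0 := by
    have h3 : ContDiffAt ℂ ω (fun ζ : ℂ => z + ζ • v) 0 := by fun_prop
    exact h3.contMDiffAt
  exact ContMDiffAt.comp (0 : ℂ) h1 h2

theorem lineDeriv (p : Y) (z v : En n) (hz : z ∈ (chartAt (En n) p).target) :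
    deriv (fun ζ : ℂ => (chartAt (En n) p : Y → En n) ((chartAt (En n) p).symm (z + ζ • v))) 0
      = v := by
  have h1 : (fun ζ : ℂ => (chartAt (En n) p : Y → En n) ((chartAt (En n) p).symm (z + ζ • v)))
      =ᶠ[𝓝 0] fun ζ : ℂ => z + ζ • v := by
    have h2 : ContinuousAt (fun ζ : ℂ => z + ζ • v) 0 := by fun_prop
    have h3 : (chartAt (En n) p).target ∈ 𝓝 (z + (0 : ℂ) • v) :=
      (chartAt (En n) p).open_target.mem_nhds (by simpa using hz)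
    filter_upwards [h2.preimage_mem_nhds h3] with ζ hζ
    exact (chartAt (En n) p).right_inv hζ
  rw [h1.deriv_eq]
  have h4 : HasDerivAt (fun ζ : ℂ => z + ζ • v) ((1 : ℂ) • v) 0 :=
    ((hasDerivAt_id (0 : ℂ)).smul_const v).const_add z
  rw [h4.deriv, one_smul]

/-- the cut-off functions -/
theorem stBump (hLev : StLevN) : StBump := by
  intro n Y _ _ hM hT Ω hK p N hN
  have hR := stReal n Y hM
  set e := chartAt (En n) p with he
  -- the good neighbourhood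
  have hgood : {q | (∀ᶠ q' in 𝓝 q, ContMDiffAt 𝓘(ℝ, En n) 𝓘(ℝ, ℝ) ∞ (Ω.pot p) q') ∧
      (∀ f : ℂ → Y, IsDisc n f → f 0 = q →
        Laplacian.laplacian (fun ζ : ℂ => Ω.pot p (f ζ) - Ω.pot q (f ζ)) 0 = 0)} ∩ N ∈ 𝓝 p := by
    refine inter_mem ?_ hN
    exact (eventually_eventually_nhds.2 (Ω.smooth p)).and (Ω.compat p)
  obtain ⟨b, -, hb⟩ : ∃ b : SmoothBumpFunction 𝓘(ℝ, En n) p, True ∧ tsupport b ⊆
      {q | (∀ᶠ q' in 𝓝 q, ContMDiffAt 𝓘(ℝ, En n) 𝓘(ℝ, ℝ) ∞ (Ω.pot p) q') ∧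
      (∀ f : ℂ → Y, IsDisc n f → f 0 = q →
        Laplacian.laplacian (fun ζ : ℂ => Ω.pot p (f ζ) - Ω.pot q (f ζ)) 0 = 0)} ∩ N :=
    (SmoothBumpFunction.nhds_basis_tsupport p).mem_iff.1 hgood
  have hcpt : IsCompact (tsupport b) := b.hasCompactSupport
  have hsrc : tsupport b ⊆ e.source := b.tsupport_subset_chartAt_source
  have hbs : ContMDiff 𝓘(ℝ, En n) 𝓘(ℝ, ℝ) ∞ b := b.contMDiff
  set K' : Set (En n) := e '' tsupport b with hK'
  have hK'c : IsCompact K' := hcpt.image_of_continuousOn (e.continuousOn.mono hsrc)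
  set ρ : En n → ℝ := fun z => Ω.pot p (e.symm z) with hρ
  set β : En n → ℝ := fun z => b (e.symm z) with hβ
  have hK't : ∀ z ∈ K', z ∈ e.target ∧ e.symm z ∈ tsupport b := by
    rintro z ⟨q, hq, rfl⟩
    refine ⟨e.map_source (hsrc hq), ?_⟩
    rw [e.left_inv (hsrc hq)]
    exact hq
  have hρs : ∀ z ∈ K', ∀ᶠ z' in 𝓝 z, ContDiffAt ℝ ∞ ρ z' := by
    intro z hz
    obtain ⟨hzt, hzs⟩ := hK't z hz
    have h1 := (hb hzs).1.1
    have h2 : ContinuousAt e.symm z := e.symm.continuousAt hzt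
    filter_upwards [h2.eventually h1, e.open_target.mem_nhds hzt] with z' h3 h4
    exact smoothChart hM p (Ω.pot p) z' h4 h3
  have hβs : ∀ z ∈ K', ∀ᶠ z' in 𝓝 z, ContDiffAt ℝ ∞ β z' := by
    intro z hz
    obtain ⟨hzt, hzs⟩ := hK't z hz
    filter_upwards [e.open_target.mem_nhds hzt] with z' h4
    exact smoothChart hM p b z' h4 hbs.contMDiffAt
  have hpos : ∀ z ∈ K', ∀ v : En n, v ≠ 0 → 0 < lev ρ z v := by
    intro z hz v hv
    obtain ⟨hzt, hzs⟩ := hK't z hz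
    obtain ⟨f0, hf0def⟩ : ∃ f0 : ℂ → Y, f0 = fun ζ : ℂ => e.symm (z + ζ • v) := ⟨_, rfl⟩
    have hd : IsDisc n f0 := by
      rw [hf0def]
      exact lineDisc hM p z v hzt
    have hf0 : f0 0 = e.symm z := by
      rw [hf0def]
      simp
    have hdv : deriv (fun ζ : ℂ => (e : Y → En n) (f0 ζ)) 0 = v := by
      rw [hf0def]
      exact lineDeriv p z v hzt
    have hs0 : f0 0 ∈ e.source := by
      rw [hf0]
      exact hsrc hzs
    have hmd : mfderiv 𝓘(ℂ, ℂ) 𝓘(ℂ, En n) f0 0 ≠ 0 := by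
      intro h0
      apply hv
      rw [← hdv]
      exact derivChart hM p f0 hd hs0 h0
    have h1 := hK f0 hd hmd
    have h2 := valChart hLev hM Ω p f0 hd hs0 (by rw [hf0]; exact (hb hzs).1.1.self_of_nhds)
      (by rw [hf0]; exact (hb hzs).1.2)
    rw [← he, hdv, hf0, e.right_inv hzt] at h2
    rw [h2] at h1
    exact h1
  have hsph : ∀ v ∈ Metric.sphere (0 : En n) 1, v ≠ 0 := by
    intro v hv h0
    rw [h0, mem_sphere_zero_iff_norm, norm_zero] at hv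
    exact zero_ne_one hv
  have hcc : IsCompact (K' ×ˢ Metric.sphere (0 : En n) 1) := hK'c.prod (isCompact_sphere _ _)
  have hcont : ContinuousOn (fun q : En n × En n => lev β q.1 q.2 / lev ρ q.1 q.2)
      (K' ×ˢ Metric.sphere (0 : En n) 1) := by
    rintro ⟨z, v⟩ ⟨hz, hv⟩
    have h1 := (hLev n).2.1 β z v (hβs z hz)
    have h2 := (hLev n).2.1 ρ z v (hρs z hz)
    exact (h1.div h2 (hpos z hz v (hsph v hv)).ne').continuousWithinAt
  obtain ⟨C0, hC0⟩ := hcc.exists_bound_of_continuousOn hcont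
  have hbd : ∀ z ∈ K', ∀ v : En n, |lev β z v| ≤ (max C0 0 + 1) * lev ρ z v := by
    intro z hz v
    have hβ2 : ContDiffAt ℝ 2 β z := (hβs z hz).self_of_nhds.of_le ENat.LEInfty.out
    have hρ2 : ContDiffAt ℝ 2 ρ z := (hρs z hz).self_of_nhds.of_le ENat.LEInfty.out
    by_cases hv : v = 0
    · subst hv
      have h1 := (hLev n).2.2 β z 0 0 hβ2
      have h2 := (hLev n).2.2 ρ z 0 0 hρ2
      simp only [smul_zero, norm_zero] at h1 h2
      rw [h1, h2]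
      norm_num
    · have hn : 0 < ‖v‖ := norm_pos_iff.2 hv
      set u : En n := ((‖v‖⁻¹ : ℝ) : ℂ) • v with hu
      have hu1 : u ∈ Metric.sphere (0 : En n) 1 := by
        rw [mem_sphere_zero_iff_norm, hu, norm_smul, Complex.norm_real, norm_inv, norm_norm,
          inv_mul_cancel₀ hn.ne']
      have hvu : ((‖v‖ : ℝ) : ℂ) • u = v := by
        rw [hu, smul_smul, ← Complex.ofReal_mul, mul_inv_cancel₀ hn.ne', Complex.ofReal_one,
          one_smul]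
      have h1 := (hLev n).2.2 β z u ((‖v‖ : ℝ) : ℂ) hβ2
      have h2 := (hLev n).2.2 ρ z u ((‖v‖ : ℝ) : ℂ) hρ2
      rw [hvu] at h1 h2
      have h3 := hC0 (z, u) ⟨hz, hu1⟩
      have h4 := hpos z hz u (hsph u hu1)
      have h5 : |lev β z u| ≤ C0 * lev ρ z u := by
        rw [Real.norm_eq_abs, abs_div, abs_of_pos h4, div_le_iff₀ h4] at h3
        exact h3
      have h6 : |lev β z u| ≤ (max C0 0 + 1) * lev ρ z u := by
        refine h5.trans (mul_le_mul_of_nonneg_right ?_ h4.le)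
        linarith [le_max_left C0 0]
      rw [h1, h2, abs_mul, abs_of_nonneg (by positivity : (0 : ℝ) ≤ ‖((‖v‖ : ℝ) : ℂ)‖ ^ 2)]
      calc ‖((‖v‖ : ℝ) : ℂ)‖ ^ 2 * |lev β z u|
          ≤ ‖((‖v‖ : ℝ) : ℂ)‖ ^ 2 * ((max C0 0 + 1) * lev ρ z u) :=
            mul_le_mul_of_nonneg_left h6 (by positivity)
        _ = (max C0 0 + 1) * (‖((‖v‖ : ℝ) : ℂ)‖ ^ 2 * lev ρ z u) := by ring
  have hCpos : 0 < max C0 0 + 1 := by linarith [le_max_right C0 0]
  refine ⟨b, max C0 0 + 1, hbs, fun q => ⟨b.nonneg, b.le_one⟩, b.eventuallyEq_one,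
    fun q hq => (hb hq).2, hCpos, ?_⟩
  intro f hf
  by_cases hq : f 0 ∈ tsupport b
  · have h1 := lapChart hLev hM p b f hf (hsrc hq) hbs.contMDiffAt
    have h2 := valChart hLev hM Ω p f hf (hsrc hq) (hb hq).1.1.self_of_nhds (hb hq).1.2
    rw [h1, h2]
    exact hbd _ ⟨f 0, hq, rfl⟩ _
  · have h1 : (fun ζ : ℂ => b (f ζ)) =ᶠ[𝓝 0] fun _ => (0 : ℝ) := by
      have hc : ContinuousAt f 0 := ContMDiffAt.continuousAt hf
      have h2 : (tsupport b)ᶜ ∈ 𝓝 (f 0) := (isClosed_tsupport b).isOpen_compl.mem_nhds hq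
      filter_upwards [hc.preimage_mem_nhds h2] with ζ hζ
      exact image_eq_zero_of_notMem_tsupport hζ
    have h3 : Laplacian.laplacian (fun ζ : ℂ => b (f ζ)) 0 = 0 := by
      rw [(InnerProductSpace.laplacian_congr_nhds h1).eq_of_nhds]
      simp
    rw [h3, abs_zero]
    exact mul_nonneg hCpos.le (valNonneg hLev hM Ω hK f hf)

end

end Pool.Agent.Y768.RB
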